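import Pool.Agent.K3h47.HY.Stm2

set_option autoImplicit false

/-! # Brick TRI3: monomials supported on three indices -/

namespace Pool.Agent.K3h87.HZ

open Finset Pool.Agent.K3h47.HY

variable {r : ℕ}

/-- `(b₁, b₂) ↦ b₁ 1_i + b₂ 1_j - (b₁ + b₂) 1_l` -/
def phi (i j l : Fin r) : ℤ × ℤ →+ (Fin r → ℤ) where
  toFun b := Pi.single i b.1 + Pi.single j b.2 - Pi.single l (b.1 + b.2)
  map_zero' := by simp
  map_add' b b' := by
    simp only [Prod.fst_add, Prod.snd_add, Pi.single_add]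
    abel

lemma phi_apply (i j l : Fin r) (b : ℤ × ℤ) :
    phi i j l b = Pi.single i b.1 + Pi.single j b.2 - Pi.single l (b.1 + b.2) := rfl

/-- the same with first component `0` -/
def psi (i j l : Fin r) : ℤ × ℤ →+ ℤ × (Fin r → ℤ) where
  toFun b := (0, phi i j l b)
  map_zero' := by rw [map_zero]; rfl
  map_add' b b' := by
    rw [map_add]
    ext <;> simp

lemma psi_apply (i j l : Fin r) (b : ℤ × ℤ) : psi i j l b = (0, phi i j l b) := rfl

/-- the vector with the sum `k` -/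
def vec (i j l : Fin r) (k : ℤ) (p : ℤ × ℤ) : Fin r → ℤ :=
  Pi.single i p.1 + Pi.single j p.2 + Pi.single l (k - p.1 - p.2)

lemma vec_sub (i j l : Fin r) (k : ℤ) (p q : ℤ × ℤ) :
    vec i j l k p - vec i j l k q = phi i j l (p - q) := by
  rw [phi_apply]
  unfold vec
  funext m
  simp only [Pi.add_apply, Pi.sub_apply, Pi.single_apply, Prod.fst_sub, Prod.snd_sub]
  split_ifs <;> ring

lemma eq_vec {R : AddSubgroup (ℤ × (Fin r → ℤ))} {c : ℤ × (Fin r → ℤ)} {M k : ℕ}
    (h : Eq R c M k) {i j l : Fin r} (hij : i ≠ j) (hil : i ≠ l) (hjl : j ≠ l) {a : Fin r → ℕ}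
    (ha : InC R c a) (hs : ∀ m, m ≠ i → m ≠ j → m ≠ l → a m = 0) :
    (fun m => (a m : ℤ)) = vec i j l k ((a i : ℤ), (a j : ℤ)) ∧ (a i : ℤ) + a j + a l = k := by
  have h1 : (fun m => (a m : ℤ)) = Pi.single i (a i : ℤ) + Pi.single j (a j : ℤ) +
      Pi.single l (a l : ℤ) := by
    funext m
    simp only [Pi.add_apply, Pi.single_apply]
    by_cases h2 : m = i
    · subst h2
      simp [hij, hil]
    · by_cases h3 : m = j
      · subst h3
        simp [h2, hjl]
      · by_cases h4 : m = l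
        · subst h4
          simp [h2, h3]
        · simp [h2, h3, h4, hs m h2 h3 h4]
  have h5 : ∑ m, (a m : ℤ) = k := by
    have h6 := h.deg _ ha
    have h7 := h.hk
    simp only [Finset.sum_sub_distrib] at h6
    linarith
  have h8 : ∑ m, (a m : ℤ) = (a i : ℤ) + a j + a l := by
    have h9 : ∑ m, (a m : ℤ) = ∑ m, (Pi.single i (a i : ℤ) + Pi.single j (a j : ℤ) +
      Pi.single l (a l : ℤ) : Fin r → ℤ) m := Finset.sum_congr rfl fun m _ => congrFun h1 m
    rw [h9]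
    simp only [Pi.add_apply, Finset.sum_add_distrib, Finset.sum_pi_single', Finset.mem_univ,
      if_true]
  have h10 : (a i : ℤ) + a j + a l = k := by rw [← h8, h5]
  refine ⟨?_, h10⟩
  rw [h1]
  unfold vec
  congr 2
  simp only
  linarith

theorem t_TRI3 : S_TRI2 → S_TRI3 := by
  intro hT r R c M k h i j l hij hil hjl G hG
  obtain ⟨a₀, hs₀, hc₀⟩ := h.pair i j hij
  obtain ⟨a₁, hs₁, hc₁⟩ := h.pair j l hjl
  obtain ⟨a₂, hs₂, hc₂⟩ := h.pair i l hil
  obtain ⟨v₀, w₀⟩ := eq_vec h hij hil hjl hc₀ (fun m h1 h2 _ => hs₀ m h1 h2)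
  obtain ⟨v₁, w₁⟩ := eq_vec h hij hil hjl hc₁ (fun m _ h2 h3 => hs₁ m h2 h3)
  obtain ⟨v₂, w₂⟩ := eq_vec h hij hil hjl hc₂ (fun m h1 _ h3 => hs₂ m h1 h3)
  have z₀ : a₀ l = 0 := hs₀ l hil.symm hjl.symm
  have z₁ : a₁ i = 0 := hs₁ i hij hil
  have z₂ : a₂ j = 0 := hs₂ j hij.symm hjl
  set p₀ : ℤ × ℤ := ((a₀ i : ℤ), (a₀ j : ℤ)) with hp₀
  -- cosets
  have hcos : ∀ a : Fin r → ℕ, InC R c a → ∀ p : ℤ × ℤ, (fun m => (a m : ℤ)) = vec i j l k p →
      p - p₀ ∈ R.comap (psi i j l) := by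
    intro a ha p hp
    rw [AddSubgroup.mem_comap, psi_apply, ← vec_sub i j l k, ← hp, ← v₀]
    have h1 := R.sub_mem hc₀ ha
    have h2 : ((c.1, fun i => c.2 i - (a₀ i : ℤ)) : ℤ × (Fin r → ℤ)) -
        (c.1, fun i => c.2 i - (a i : ℤ)) = (0, (fun m => (a m : ℤ)) - fun m => (a₀ m : ℤ)) := by
      ext m
      · simp
      · simp
    rw [h2] at h1
    exact h1
  have hcos' : ∀ p : ℤ × ℤ, p - p₀ ∈ R.comap (psi i j l) → 0 ≤ p.1 → 0 ≤ p.2 → p.1 + p.2 ≤ k →
      ∃ a : Fin r → ℕ, InC R c a ∧ (∀ m, m ≠ i → m ≠ j → m ≠ l → a m = 0) ∧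
        (fun m => (a m : ℤ)) = vec i j l k p := by
    intro p hp h1 h2 h3
    refine ⟨fun m => (vec i j l k p m).toNat, ?_, ?_, ?_⟩
    · have h4 : (fun m => ((vec i j l k p m).toNat : ℤ)) = vec i j l k p := by
        funext m
        apply Int.toNat_of_nonneg
        unfold vec
        simp only [Pi.add_apply, Pi.single_apply]
        have h5 : 0 ≤ (k : ℤ) - p.1 - p.2 := by linarith
        split_ifs <;> linarith
      rw [AddSubgroup.mem_comap, psi_apply, ← vec_sub i j l k, ← v₀] at hp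
      have h5 := R.sub_mem hc₀ hp
      unfold InC
      have h6 : ((c.1, fun i => c.2 i - (a₀ i : ℤ)) : ℤ × (Fin r → ℤ)) -
          (0, vec i j l k p - fun m => (a₀ m : ℤ)) =
          (c.1, fun m => c.2 m - ((vec i j l k p m).toNat : ℤ)) := by
        ext m
        · simp
        · have h7 := congrFun h4 m
          simp only [Prod.snd_sub, Pi.sub_apply]
          rw [h7]
          ring
      rw [← h6]
      exact h5
    · intro m e1 e2 e3
      simp [vec, Pi.single_apply, e1, e2, e3]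
    · funext m
      apply Int.toNat_of_nonneg
      unfold vec
      simp only [Pi.add_apply, Pi.single_apply]
      have h5 : 0 ≤ (k : ℤ) - p.1 - p.2 := by linarith
      split_ifs <;> linarith
  have hM1 : ((M : ℤ), (0 : ℤ)) ∈ R.comap (psi i j l) := by
    rw [AddSubgroup.mem_comap, psi_apply, phi_apply]
    have h1 := R.sub_mem (h.rel i) (h.rel l)
    have h2 : ((-1, Pi.single i (M : ℤ)) : ℤ × (Fin r → ℤ)) - (-1, Pi.single l (M : ℤ)) =
        (0, Pi.single i (M : ℤ) + Pi.single j 0 - Pi.single l ((M : ℤ) + 0)) := by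
      ext m <;> simp
    rw [h2] at h1
    exact h1
  have hM2 : ((0 : ℤ), (M : ℤ)) ∈ R.comap (psi i j l) := by
    rw [AddSubgroup.mem_comap, psi_apply, phi_apply]
    have h1 := R.sub_mem (h.rel j) (h.rel l)
    have h2 : ((-1, Pi.single j (M : ℤ)) : ℤ × (Fin r → ℤ)) - (-1, Pi.single l (M : ℤ)) =
        (0, Pi.single i 0 + Pi.single j (M : ℤ) - Pi.single l (0 + (M : ℤ))) := by
      ext m <;> simp
    rw [h2] at h1
    exact h1
  have h2M := h.two
  have hMk := h.le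
  obtain ⟨g1, g2⟩ := hT (R.comap (psi i j l)) p₀ M k (by omega) (by exact_mod_cast hMk) hM1 hM2
    ⟨((a₁ i : ℤ), (a₁ j : ℤ)), hcos a₁ hc₁ _ v₁, by simp [z₁], by positivity, by
      have : (0 : ℤ) ≤ a₁ l := by positivity
      have : (0 : ℤ) ≤ a₁ i := by positivity
      simp only
      linarith⟩
    ⟨((a₂ i : ℤ), (a₂ j : ℤ)), hcos a₂ hc₂ _ v₂, by simp [z₂], by positivity, by
      have : (0 : ℤ) ≤ a₂ l := by positivity
      have : (0 : ℤ) ≤ a₂ j := by positivity
      simp only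
      linarith⟩
    ⟨p₀, by rw [sub_self]; exact AddSubgroup.zero_mem _, by
      rw [z₀] at w₀
      simpa [hp₀] using w₀, by positivity, by positivity⟩
    (G.comap (phi i j l)) (by
      intro p q hp hq p1 p2 p3 q1 q2 q3
      obtain ⟨a, ia, sa, va⟩ := hcos' p hp p1 p2 p3
      obtain ⟨b, ib, sb, vb⟩ := hcos' q hq q1 q2 q3
      have h1 := hG a b ia ib sa sb
      rw [AddSubgroup.mem_comap, ← vec_sub i j l k, ← va, ← vb]
      exact h1)
  rw [AddSubgroup.mem_comap, phi_apply] at g1 g2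
  have h1 := G.sub_mem g1 g2
  have h2 : (Pi.single i (M : ℤ) + Pi.single j 0 - Pi.single l ((M : ℤ) + 0) : Fin r → ℤ) -
      (Pi.single i 0 + Pi.single j (M : ℤ) - Pi.single l (0 + (M : ℤ))) =
      Pi.single i (M : ℤ) - Pi.single j (M : ℤ) := by
    simp
  simp only at h1
  rw [h2] at h1
  exact h1

end Pool.Agent.K3h87.HZ
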